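import Pool.Agent.Helper27_TM.Bound

/-!
Question 1: `|h_n| ≥ (2/7) |h_{n-1}|` for every `n ≥ 4`.
-/

set_option autoImplicit false

namespace Pool.Agent.Results.MP_e68cb8_nt.Q1Bound

open Pool.Agent.Helper27_TM

/-- The Thue-Morse twisted Fibonacci sequence `h` satisfies `|h_n| ≥ (2/7) |h_{n-1}|` for all
`n ≥ 4`. -/
theorem result : ∀ n : ℕ, 4 ≤ n → (2 / 7 : ℚ) * |(h (n - 1) : ℚ)| ≤ |(h n : ℚ)| := by
  intro n hn
  have h1 := bound_int n hn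
  have h2 : (2 : ℚ) * |(h (n - 1) : ℚ)| ≤ 7 * |(h n : ℚ)| := by exact_mod_cast h1
  linarith

end Pool.Agent.Results.MP_e68cb8_nt.Q1Bound
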