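import Pool.Agent.Helper27_TM.LimInf

/-!
Question 2 for the best constants, i.e. with `C_{k,i}` the infimum (which is a minimum) of the
ratios `ρ_{2^k n + i + 1}` over all `n` with `2^k n + i ≥ 4`.
-/

set_option autoImplicit false

namespace Pool.Agent.Results.MP_e68cb8_nt.Q2BestConstants

open Pool.Agent.Helper27_TM

/-- For all `k ≥ 1` and `i < 2^k` the best constant `C k i` is rational, is attained, and the
inequality holds with it; moreover `C (2k) 0 = C (2k+1) 0` for all `k ≥ 1`, and the listed values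
are correct. -/
theorem result :
    (∀ k i : ℕ, 1 ≤ k → i < 2 ^ k →
      (∃ q : ℚ, C k i = q) ∧
      (∃ n : ℕ, 4 ≤ 2 ^ k * n + i ∧ C k i = rho (2 ^ k * n + i + 1)) ∧
      (∀ n : ℕ, 4 ≤ 2 ^ k * n + i →
        C k i * |(h (2 ^ k * n + i) : ℝ)| ≤ |(h (2 ^ k * n + i + 1) : ℝ)|)) ∧
    (∀ k : ℕ, 1 ≤ k → C (2 * k) 0 = C (2 * k + 1) 0) ∧
    C 1 0 = 2 / 7 ∧ C 2 0 = 2 / 3 ∧ C 4 0 = 64 / 83 ∧ C 6 0 = 52071130 / 67519091 := by
  refine ⟨?_, ?_, C_one_zero, C_two_zero, C_four_zero, C_six_zero⟩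
  · intro k i hk hi
    have hleast := C_isLeast k i hk hi
    obtain ⟨n0, h0, h1⟩ := hleast.1
    refine ⟨?_, ⟨n0, h0, h1⟩, ?_⟩
    · rw [h1]; exact rho_rat _
    · intro n hn
      have h2 : C k i ≤ rho (2 ^ k * n + i + 1) := hleast.2 ⟨n, hn, rfl⟩
      have h3 : 0 < |(h (2 ^ k * n + i) : ℝ)| := by
        rw [abs_pos]
        exact_mod_cast h_ne_zero _ hn
      unfold rho at h2
      rw [show 2 ^ k * n + i + 1 - 1 = 2 ^ k * n + i by omega, le_div_iff₀ h3] at h2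
      exact h2
  · intro k hk
    rw [C_even k hk, C_odd k hk]

end Pool.Agent.Results.MP_e68cb8_nt.Q2BestConstants
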