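import Pool.Agent.Helper27_TM.LimInf

/-!
Question 2 with the lower limits as in the wording of the problem: all of them are irrational.
-/

set_option autoImplicit false

namespace Pool.Agent.Results.MP_e68cb8_nt.Q2LowerLimits

open Pool.Agent.Helper27_TM

/-- For every `k ≥ 1` and every `i < 2^k` the lower limit `liminf_{n → ∞} ρ_{2^k n + i + 1}` is
irrational. -/
theorem result : ∀ k i : ℕ, 1 ≤ k → i < 2 ^ k → Irrational (Climinf k i) :=
  fun k i _ _ => Climinf_irrational k i

end Pool.Agent.Results.MP_e68cb8_nt.Q2LowerLimits
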